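import Pool.Agent.LSG.Stmts

set_option autoImplicit false

open MeasureTheory Set Topology

namespace Pool.Agent.LSG.H18

/-- counting the points of cosets -/
theorem count {k : ℕ} (X : Finset K) (H : AddSubgroup K) (hH : (H : Set K).Finite)
    (hX : ∀ x ∈ X, ∀ y ∈ X, x - y ∈ H → x = y) (D : Fin k → Set K) :
    ({p : K × Fin k | (∃ x ∈ X, p.1 - x ∈ H) ∧ p.1 ∈ D p.2}).Finite ∧
    ({p : K × Fin k | (∃ x ∈ X, p.1 - x ∈ H) ∧ p.1 ∈ D p.2}).ncard =
      ∑ x ∈ X, ∑ i, Set.ncard {h : K | h ∈ H ∧ x + h ∈ D i} := by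
  classical
  set Hf : Finset K := hH.toFinset with hHf
  have hmem : ∀ h, h ∈ Hf ↔ h ∈ H := by
    intro h
    rw [hHf, Set.Finite.mem_toFinset]
    rfl
  set S : Finset (K × Fin k × K) :=
    (X ×ˢ ((Finset.univ : Finset (Fin k)) ×ˢ Hf)).filter (fun t => t.1 + t.2.2 ∈ D t.2.1) with hS
  have himg : {p : K × Fin k | (∃ x ∈ X, p.1 - x ∈ H) ∧ p.1 ∈ D p.2} =
      ((S.image (fun t => (t.1 + t.2.2, t.2.1)) : Finset (K × Fin k)) : Set (K × Fin k)) := by
    ext p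
    simp only [Finset.coe_image, Set.mem_image, Finset.mem_coe, hS, Finset.mem_filter,
      Finset.mem_product, Finset.mem_univ, true_and, hmem]
    constructor
    · rintro ⟨⟨x, hx, hp⟩, hD⟩
      refine ⟨(x, p.2, p.1 - x), ⟨⟨hx, hp⟩, ?_⟩, ?_⟩
      · show x + (p.1 - x) ∈ D p.2
        rw [add_sub_cancel]
        exact hD
      · show (x + (p.1 - x), p.2) = p
        rw [add_sub_cancel]
    · rintro ⟨t, ⟨⟨hx, hh⟩, hD⟩, rfl⟩
      refine ⟨⟨t.1, hx, ?_⟩, hD⟩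
      show t.1 + t.2.2 - t.1 ∈ H
      rw [add_sub_cancel_left]
      exact hh
  refine ⟨?_, ?_⟩
  · rw [himg]
    exact Finset.finite_toSet _
  · rw [himg, Set.ncard_coe_finset]
    rw [Finset.card_image_of_injOn]
    · rw [hS, Finset.card_filter, Finset.sum_product]
      refine Finset.sum_congr rfl fun x _ => ?_
      rw [Finset.sum_product]
      refine Finset.sum_congr rfl fun i _ => ?_
      rw [← Finset.card_filter]
      rw [← Set.ncard_coe_finset]
      congr 1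
      ext h
      simp only [Finset.coe_filter, Set.mem_ofPred_eq, hmem]
    · intro t ht t' ht' h
      simp only [Finset.mem_coe, hS, Finset.mem_filter, Finset.mem_product, Finset.mem_univ,
        true_and, hmem] at ht ht'
      simp only [Prod.mk.injEq] at h
      obtain ⟨h1, h2⟩ := h
      have h3 : t.1 = t'.1 := by
        refine hX _ ht.1.1 _ ht'.1.1 ?_
        have : t.1 - t'.1 = t'.2.2 - t.2.2 := by
          rw [sub_eq_sub_iff_add_eq_add, h1, add_comm]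
        rw [this]
        exact H.sub_mem ht'.1.2 ht.1.2
      rw [h3] at h1
      have h4 := add_left_cancel h1
      exact Prod.ext h3 (Prod.ext h2 h4)

theorem card_le {ι α : Type} (c : ι → α →₀ ℝ) (hli : LinearIndependent ℝ c) (AA : Set α)
    (BB : Set ι) (hA : AA.Finite) (hB : BB.Finite)
    (hs : ∀ b ∈ BB, ∀ a, c b a ≠ 0 → a ∈ AA) : BB.ncard ≤ AA.ncard := by
  classical
  have hsupp : ∀ b : BB, c b.1 ∈ Finsupp.supported ℝ ℝ AA := by
    intro b
    rw [Finsupp.mem_supported]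
    intro a ha
    exact hs b.1 b.2 a (by simpa using ha)
  have : Fintype BB := hB.fintype
  have hv : LinearIndependent ℝ (fun b : BB => c b.1) :=
    hli.comp (fun b : BB => b.1) Subtype.val_injective
  have hsub : Set.range (fun b : BB => c b.1) ⊆
      Submodule.span ℝ ((hA.toFinset.image (fun i : α => Finsupp.single i (1 : ℝ)) :
        Finset (α →₀ ℝ)) : Set (α →₀ ℝ)) := by
    rintro _ ⟨b, rfl⟩
    have h := hsupp b
    rw [Finsupp.supported_eq_span_single] at h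
    have hh : ((hA.toFinset.image (fun i : α => Finsupp.single i (1 : ℝ)) :
        Finset (α →₀ ℝ)) : Set (α →₀ ℝ)) = (fun i : α => Finsupp.single i (1 : ℝ)) '' AA := by
      rw [Finset.coe_image, Set.Finite.coe_toFinset]
    rw [hh]
    exact h
  have h1 := finrank_span_eq_card hv
  have h2 := Submodule.finrank_mono (Submodule.span_le.2 hsub)
  have h3 := finrank_span_finset_le_card (R := ℝ)
    (hA.toFinset.image (fun i : α => Finsupp.single i (1 : ℝ)))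
  have h4 : (hA.toFinset.image (fun i : α => Finsupp.single i (1 : ℝ))).card ≤ AA.ncard := by
    rw [Set.ncard_eq_toFinset_card _ hA]
    exact Finset.card_image_le
  have h5 : Fintype.card BB = BB.ncard := by
    rw [← Nat.card_eq_fintype_card, Nat.card_coe_set_eq]
  have h6 : Set.finrank ℝ ((hA.toFinset.image (fun i : α => Finsupp.single i (1 : ℝ)) :
      Finset (α →₀ ℝ)) : Set (α →₀ ℝ)) =
    Module.finrank ℝ (Submodule.span ℝ ((hA.toFinset.image
      (fun i : α => Finsupp.single i (1 : ℝ)) : Finset (α →₀ ℝ)) : Set (α →₀ ℝ))) := rfl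
  omega

theorem mai (hRpv : RpvStmt) (hInd : IndStmt) (hExh : ExhStmt) (hCtl : CtlStmt) : MaiStmt := by
  classical
  intro G hG k A B hA hB hlt hD
  obtain ⟨T, hT, hd⟩ := hD
  obtain ⟨c, hc⟩ := hRpv A B T hT
  have hmet4 : TopologicalSpace.MetrizableSpace G := Topology.IsEmbedding.subtypeVal.metrizableSpace
  have hmet6 : TopologicalSpace.MetrizableSpace B := Topology.IsEmbedding.subtypeVal.metrizableSpace
  have hli : LinearIndependent ℝ c := hInd A B T c hc hd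
  obtain ⟨H, A', E, hHf, hHG, hA', hE, hAA, hEE, hlt'⟩ := hExh G hG k A B hA hB hlt T c hc
  obtain ⟨X, hXG, hXc, hXd, hXlt⟩ := hCtl G hG H hHf hHG k A' E hA' hE hlt'
    (k * (hHf.toFinset).card + 1)
  obtain ⟨hfA, hnA⟩ := count X H hHf hXd A'
  obtain ⟨hfE, hnE⟩ := count X H hHf hXd E
  obtain ⟨AA, hAAdef⟩ : ∃ AA : Set A, ∀ a, a ∈ AA ↔
      (∃ x ∈ X, (a.1.1 : K) - x ∈ H) ∨ (a.1.1 : K) ∈ H := ⟨{a | _}, fun _ => Iff.rfl⟩
  obtain ⟨BB, hBBdef⟩ : ∃ BB : Set B, ∀ b, b ∈ BB ↔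
      (∃ x ∈ X, (b.1.1 : K) - x ∈ H) ∧ (b.1.1 : K) ∈ E b.1.2 := ⟨{b | _}, fun _ => Iff.rfl⟩
  obtain ⟨SA, hSA⟩ : ∃ SA : Set (K × Fin k), SA =
    {p : K × Fin k | (∃ x ∈ X, p.1 - x ∈ H) ∧ p.1 ∈ A' p.2} := ⟨_, rfl⟩
  obtain ⟨SE, hSE⟩ : ∃ SE : Set (K × Fin k), SE =
    {p : K × Fin k | (∃ x ∈ X, p.1 - x ∈ H) ∧ p.1 ∈ E p.2} := ⟨_, rfl⟩
  rw [← hSA] at hfA hnA
  rw [← hSE] at hfE hnE
  -- the embedding into K x Fin k
  obtain ⟨jA, hjA⟩ : ∃ jA : A → K × Fin k, ∀ a, jA a = ((a.1.1 : K), a.1.2) :=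
    ⟨fun a => ((a.1.1 : K), a.1.2), fun _ => rfl⟩
  obtain ⟨jB, hjB⟩ : ∃ jB : B → K × Fin k, ∀ a, jB a = ((a.1.1 : K), a.1.2) :=
    ⟨fun a => ((a.1.1 : K), a.1.2), fun _ => rfl⟩
  have jAi : Function.Injective jA := by
    intro a a' h
    rw [hjA, hjA, Prod.mk.injEq] at h
    exact Subtype.ext (Prod.ext (Subtype.ext h.1) h.2)
  have jBi : Function.Injective jB := by
    intro a a' h
    rw [hjB, hjB, Prod.mk.injEq] at h
    exact Subtype.ext (Prod.ext (Subtype.ext h.1) h.2)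
  obtain ⟨SH, hSH⟩ : ∃ SH : Set (K × Fin k), SH = (H : Set K) ×ˢ (Set.univ : Set (Fin k)) :=
    ⟨_, rfl⟩
  have hSHf : SH.Finite := by
    rw [hSH]
    exact hHf.prod Set.finite_univ
  have hAAsub : jA '' AA ⊆ SA ∪ SH := by
    rintro p ⟨a, ha, rfl⟩
    have haA : (a.1.1 : K) ∈ A' a.1.2 := (hAA a.1.2 (a.1.1 : K) a.1.1.2).2 a.2
    rcases (hAAdef a).1 ha with ha | ha
    · left
      rw [hSA, hjA]
      exact ⟨ha, haA⟩
    · right
      rw [hSH, hjA]
      exact ⟨ha, trivial⟩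
  have hAAf : AA.Finite :=
    Set.Finite.of_finite_image ((hfA.union hSHf).subset hAAsub) (jAi.injOn)
  have hBBsub : SE ⊆ jB '' BB := by
    intro p hp
    rw [hSE] at hp
    obtain ⟨⟨x, hx, hp⟩, hE'⟩ := hp
    have hpG : p.1 ∈ G := by
      have h1 := G.add_mem (hHG hp) (hXG x hx)
      rwa [sub_add_cancel] at h1
    obtain ⟨hBm, _⟩ := (hEE p.2 p.1 hpG).1 hE'
    refine ⟨⟨_, hBm⟩, (hBBdef _).2 ⟨⟨x, hx, hp⟩, hE'⟩, ?_⟩
    rw [hjB]
  have hBBf : BB.Finite := by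
    refine Set.Finite.of_finite_image (hfE.subset ?_) (jBi.injOn)
    rintro p ⟨b, hb, rfl⟩
    rw [hSE, hjB]
    exact (hBBdef b).1 hb
  -- cardinalities
  have hcardA : AA.ncard ≤ (∑ x ∈ X, ∑ i, Set.ncard {h : K | h ∈ H ∧ x + h ∈ A' i}) +
      k * (hHf.toFinset).card := by
    rw [← Set.ncard_image_of_injective AA jAi]
    refine (Set.ncard_le_ncard hAAsub (hfA.union hSHf)).trans ?_
    refine (Set.ncard_union_le _ _).trans ?_
    rw [hnA]
    have : SH.ncard = k * (hHf.toFinset).card := by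
      rw [hSH, Set.ncard_prod, Set.ncard_univ, Nat.card_eq_fintype_card, Fintype.card_fin,
        Set.ncard_eq_toFinset_card _ hHf, mul_comm]
    rw [this]
  have hcardB : (∑ x ∈ X, ∑ i, Set.ncard {h : K | h ∈ H ∧ x + h ∈ E i}) ≤ BB.ncard := by
    rw [← hnE, ← Set.ncard_image_of_injective BB jBi]
    exact Set.ncard_le_ncard hBBsub (hBBf.image _)
  have hsum : (∑ x ∈ X, ∑ i, Set.ncard {h : K | h ∈ H ∧ x + h ∈ A' i}) + X.card ≤
      ∑ x ∈ X, ∑ i, Set.ncard {h : K | h ∈ H ∧ x + h ∈ E i} := by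
    rw [Finset.card_eq_sum_ones, ← Finset.sum_add_distrib]
    exact Finset.sum_le_sum fun x hx => hXlt x hx
  have hlast : AA.ncard < BB.ncard := by
    rw [hXc] at hsum
    omega
  refine absurd (card_le c hli AA BB hAAf hBBf ?_) (not_le.2 hlast)
  intro b hb a ha
  obtain ⟨⟨x, hx, hbx⟩, hbE⟩ := (hBBdef b).1 hb
  obtain ⟨hBm, hh⟩ := (hEE b.1.2 (b.1.1 : K) b.1.1.2).1 hbE
  rw [hAAdef]
  rcases hh a ha with h | h
  · exact Or.inr h
  · refine Or.inl ⟨x, hx, ?_⟩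
    have h1 := H.add_mem h hbx
    rwa [sub_add_sub_cancel] at h1

end Pool.Agent.LSG.H18
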