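import Pool.Agent.Helper18_LSG.FIN
import Pool.Agent.Helper27_LSG.MUK
import Pool.Agent.Helper3_LSG.SPL
import Pool.Agent.Helper70_LSG.MYC
import Pool.Agent.Helper13_LSG.TRA
import Pool.Agent.Helper2_LSG.CRD
import Pool.Agent.Helper41_LSG.Grp
import Pool.Agent.Helper23_LSG.DEN
import Pool.Agent.Helper11_LSG.OUT
import Pool.Agent.Helper46_LSG.RPV
import Pool.Agent.Helper59_LSG.IND
import Pool.Agent.Helper36_LSG.BOX
import Pool.Agent.Helper34_LSG.TRC
import Pool.Agent.Helper24_LSG.MSB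
import Pool.Agent.Helper21_LSG.PHI
import Pool.Agent.Helper92_LSG.SUP
import Pool.Agent.Helper19_LSG.CTL
import Pool.Agent.Helper87_LSG.EXH
import Pool.Agent.Helper21_LSG.BRI
import Pool.Agent.Helper99_LSG.CPE
import Pool.Agent.Helper86_LSG.NPC
import Pool.Agent.Helper72_LSG.CVR
import Pool.Agent.Helper66_LSG.CCV
import Pool.Agent.Helper34_LSG.ZST
import Pool.Agent.Helper17_LSG.CYL
import Pool.Agent.Helper92_LSG.GNT
import Pool.Agent.Helper41_LSG.TRL
import Pool.Agent.Helper50_LSG.OPN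
import Pool.Agent.Helper80_LSG.OVL
import Pool.Agent.Helper23_LSG.FSM
import Pool.Agent.Helper41_LSG.HME
import Pool.Agent.Helper43_LSG.NLS
import Pool.Agent.Helper19_LSG.CO2
import Pool.Agent.Helper62_LSG.BAI
import Pool.Agent.Helper98_LSG.BDS
import Pool.Agent.Helper25_LSG.CLP
import Pool.Agent.Helper21_LSG.NP2
import Pool.Agent.Helper92_LSG.NSD
import Pool.Agent.Helper88_LSG.SZD
import Pool.Agent.Helper37_LSG.PEL
import Pool.Agent.Helper37_LSG.DUG
import Pool.Agent.Helper18_LSG.CEX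
import Pool.Agent.Helper18_LSG.MAI

set_option autoImplicit false

namespace Pool.Agent.LSG.H18

theorem muk_ : MukStmt := H27.muk
theorem myc_ : MycStmt := H70.myc muk_ H3.spl
theorem con_ : ConStmt := H41.con muk_ myc_ H13.tra H2.crd
theorem co2_ : Co2Stmt := H19.co2 muk_ myc_ H13.tra H2.crd
theorem den_ : DenStmt := H23.den
theorem out_ : OutStmt := H11.out
theorem msb_ : MsbStmt := H24.msb H36.box H34.trc
theorem phi_ : PhiStmt := H21.phi msb_
theorem sup_ : SupStmt := H92.sup H36.box H34.trc phi_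
theorem ctl_ : CtlStmt := H19.ctl muk_
theorem exh_ : ExhStmt := H87.exh sup_ H34.trc out_
theorem cyl_ : CylStmt := H17.cyl muk_
theorem gnt_ : GntStmt := H92.gnt muk_
theorem opn_ : OpnStmt := H50.opn cyl_ H41.trl out_ den_ gnt_
theorem fsm_ : FsmStmt := H23.fsm H41.trl
theorem hme_ : HmeStmt := H41.hme opn_ H80.ovl fsm_ den_ out_ cyl_

theorem mai_ : MaiStmt := mai H46.rpv H59.ind exh_ ctl_

theorem fn1_ : Fn1Stmt :=
  fn1 con_ den_ mai_ (H43.nls mai_ H99.cpe cex H21.bri out_ cyl_) hme_ H99.cpe H21.bri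

theorem np2_ : Np2Stmt :=
  H21.np2 H86.npc H72.cvr (H66.ccv cex H99.cpe H37.dug) H37.pel cex H99.cpe H21.bri

theorem fn3_ : Fn3Stmt :=
  fn3 co2_ den_ (H34.zst H37.pel cex H99.cpe H21.bri) H88.szd
    (H92.nsd H46.rpv H98.bds H25.clp H62.bai mai_ out_ cyl_)

end Pool.Agent.LSG.H18
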