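import Pool.Agent.LSG.StmtsD

set_option autoImplicit false

open MeasureTheory Set Topology

namespace Pool.Agent.LSG.H18

section

variable {Q I : Type} [MetricSpace Q]

/-- the points deep in `U i` and not in the earlier sets -/
def stoA (rel : I → I → Prop) (U : I → Set Q) (r : ℝ) (i : I) : Set Q :=
  {q | Metric.ball q (3 * r) ⊆ U i ∧ ∀ j, rel j i → q ∉ U j}

open Classical in
/-- the bump around `stoA` -/
noncomputable def stoF (A : Set Q) (r : ℝ) (q : Q) : ℝ :=
  if A.Nonempty then max 0 (r - Metric.infDist q A) else 0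

theorem stoF_cont (A : Set Q) (r : ℝ) : Continuous (stoF A r) := by
  by_cases h : A.Nonempty
  · have : stoF A r = fun q => max 0 (r - Metric.infDist q A) := by
      funext q
      simp [stoF, h]
    rw [this]
    exact continuous_const.max (continuous_const.sub (Metric.continuous_infDist_pt A))
  · have : stoF A r = fun _ => 0 := by
      funext q
      simp [stoF, h]
    rw [this]
    exact continuous_const

theorem stoF_nonneg (A : Set Q) (r : ℝ) (q : Q) : 0 ≤ stoF A r q := by
  unfold stoF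
  split_ifs
  · exact le_max_left _ _
  · exact le_refl _

theorem stoF_near {A : Set Q} {r : ℝ} {q : Q} (h : stoF A r q ≠ 0) : ∃ a ∈ A, dist q a < r := by
  unfold stoF at h
  split_ifs at h with hA
  · have h1 : Metric.infDist q A < r := by
      by_contra hc
      exact h (max_eq_left (by linarith [not_lt.1 hc]))
    exact (Metric.infDist_lt_iff hA).1 h1
  · exact absurd rfl h

theorem stoF_pos {A : Set Q} {r : ℝ} (hr : 0 < r) {q : Q} (h : q ∈ A) : stoF A r q ≠ 0 := by
  have hA : A.Nonempty := ⟨q, h⟩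
  simp only [stoF, hA, if_true, Metric.infDist_zero_of_mem h, sub_zero]
  rw [max_eq_right hr.le]
  exact hr.ne'

theorem stoA_dist {rel : I → I → Prop} [IsWellOrder I rel] {U : I → Set Q} {r : ℝ} {i j : I}
    {a b : Q} (ha : a ∈ stoA rel U r i) (hb : b ∈ stoA rel U r j) (hab : dist a b < 3 * r) :
    i = j := by
  rcases trichotomous_of rel i j with h | h | h
  · exact absurd (ha.1 (by rw [Metric.mem_ball, dist_comm]; exact hab)) (hb.2 i h)
  · exact h
  · exact absurd (hb.1 (by rw [Metric.mem_ball]; exact hab)) (ha.2 j h)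

end

theorem exists_of_finsum {ι : Type} {f : ι → ℝ} (h : ∑ᶠ i, f i ≠ 0) : ∃ i, f i ≠ 0 := by
  by_contra hc
  push Not at hc
  apply h
  have : f = fun _ => 0 := funext hc
  rw [this]
  exact finsum_zero

theorem sto (hCtk : CtkStmt) : StoStmt := by
  classical
  intro Q I _ _ U hU hcov
  letI : MetricSpace Q := TopologicalSpace.metrizableSpaceMetric Q
  let rel : I → I → Prop := WellOrderingRel
  let r : ℕ → ℝ := fun c => 1 / ((c : ℝ) + 1)
  have hr : ∀ c, 0 < r c := fun c => by positivity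
  let φ : ℕ → I → C(Q, ℝ) := fun c i => ⟨stoF (stoA rel U (r c) i) (r c), stoF_cont _ _⟩
  have hφ0 : ∀ c i q, 0 ≤ φ c i q := fun c i q => stoF_nonneg _ _ _
  have hnear : ∀ c i q, φ c i q ≠ 0 → ∃ a ∈ stoA rel U (r c) i, dist q a < r c :=
    fun c i q h => stoF_near h
  have hφU : ∀ c i q, φ c i q ≠ 0 → q ∈ U i := by
    intro c i q h
    obtain ⟨a, ha, hd⟩ := hnear c i q h
    exact ha.1 (by rw [Metric.mem_ball]; linarith [hr c])
  have hφd : ∀ c i j q q', φ c i q ≠ 0 → φ c j q' ≠ 0 → dist q q' < r c → i = j := by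
    intro c i j q q' h h' hqq
    obtain ⟨a, ha, hd⟩ := hnear c i q h
    obtain ⟨b, hb, hd'⟩ := hnear c j q' h'
    refine stoA_dist ha hb ?_
    have h1 := dist_triangle4 a q q' b
    rw [dist_comm a q] at h1
    linarith
  have hlf : ∀ c, LocallyFinite fun i => Function.support (φ c i) := by
    intro c q
    refine ⟨Metric.ball q (r c / 2), Metric.ball_mem_nhds q (by linarith [hr c]), ?_⟩
    refine Set.Subsingleton.finite ?_
    rintro i ⟨x, hx, hx'⟩ j ⟨y, hy, hy'⟩
    refine hφd c i j x y hx hy ?_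
    rw [Metric.mem_ball] at hx' hy'
    have h1 := dist_triangle x q y
    rw [dist_comm q y] at h1
    linarith
  have hex : ∀ q, ∃ c i, φ c i q ≠ 0 := by
    intro q
    have hwf : WellFounded rel := IsWellFounded.wf
    obtain ⟨i, hi, hmin⟩ := hwf.has_min {i | q ∈ U i} (hcov q)
    obtain ⟨ε, hε, hball⟩ := Metric.isOpen_iff.1 (hU i) q hi
    obtain ⟨c, hc⟩ := exists_nat_gt (3 / ε)
    refine ⟨c, i, stoF_pos (hr c) ⟨?_, ?_⟩⟩
    · refine (Metric.ball_subset_ball ?_).trans hball
      have h1 : (0 : ℝ) < (c : ℝ) + 1 := by positivity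
      show 3 * (1 / ((c : ℝ) + 1)) ≤ ε
      rw [mul_one_div, div_le_iff₀ h1]
      rw [div_lt_iff₀ hε] at hc
      nlinarith
    · intro j hj hq
      exact hmin j hq hj
  let s : ℕ → C(Q, ℝ) := fun c =>
    ⟨fun q => ∑ᶠ i, φ c i q, continuous_finsum (fun i => (φ c i).continuous) (hlf c)⟩
  have hs : ∀ c q, s c q = ∑ᶠ i, φ c i q := fun c q => rfl
  have hs0 : ∀ c q, 0 ≤ s c q := fun c q => finsum_nonneg fun i => hφ0 c i q
  have hsφ : ∀ c q, s c q ≠ 0 → ∃ i, φ c i q ≠ 0 := by
    intro c q h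
    exact exists_of_finsum h
  have hφs : ∀ c i q, φ c i q ≠ 0 → s c q ≠ 0 := by
    intro c i q h
    have h1 : s c q = φ c i q := by
      rw [hs]
      refine finsum_eq_single _ i ?_
      intro j hj
      by_contra hc
      exact hj (hφd c j i q q hc h (by rw [dist_self]; exact hr c))
    rw [h1]
    exact h
  obtain ⟨χ, hχs, hχlf, hχ1⟩ := hCtk Q s hs0 (fun q => by
    obtain ⟨c, i, h⟩ := hex q
    exact ⟨c, hφs c i q h⟩)
  refine ⟨fun c i => φ c i * (χ c) ^ 2, ?_, ?_, ?_, ?_, ?_⟩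
  · intro c i q
    show 0 ≤ φ c i q * (χ c q) ^ 2
    exact mul_nonneg (hφ0 c i q) (sq_nonneg _)
  · intro c i q h
    exact hφU c i q (left_ne_zero_of_mul h)
  · intro c i j q h h'
    exact hφd c i j q q (left_ne_zero_of_mul h) (left_ne_zero_of_mul h')
      (by rw [dist_self]; exact hr c)
  · intro q
    obtain ⟨W, hW, hf⟩ := hχlf q
    choose W' hW' hf' using fun c => hlf c q
    refine ⟨W ∩ ⋂ c ∈ hf.toFinset, W' c, Filter.inter_mem hW
      ((Filter.biInter_finset_mem _).2 fun c _ => hW' c), ?_⟩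
    refine Set.Finite.subset (Set.Finite.biUnion hf
      (fun c _ => (hf' c).image (fun i => (c, i)))) ?_
    rintro ⟨c, i⟩ ⟨x, hx, hxW, hxI⟩
    have h1 : φ c i x ≠ 0 := left_ne_zero_of_mul hx
    have h2 : χ c x ≠ 0 := by
      intro h0
      apply hx
      show φ c i x * (χ c x) ^ 2 = 0
      rw [h0]
      ring
    have hc : c ∈ {c | (Function.support (χ c) ∩ W).Nonempty} := ⟨x, h2, hxW⟩
    refine Set.mem_biUnion hc ?_
    refine ⟨i, ⟨x, h1, ?_⟩, rfl⟩
    exact Set.mem_iInter₂.1 hxI c (hf.mem_toFinset.2 hc)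
  · intro q
    have h1 : ∑ᶠ c, (χ c q) ^ 2 ≠ 0 := by
      rw [hχ1]
      exact one_ne_zero
    obtain ⟨c, hc⟩ := exists_of_finsum h1
    have h2 : χ c q ≠ 0 := by
      intro h0
      apply hc
      rw [h0]
      ring
    obtain ⟨i, hi⟩ := hsφ c q (hχs c q h2)
    exact ⟨c, i, mul_ne_zero hi (pow_ne_zero 2 h2)⟩

end Pool.Agent.LSG.H18
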