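import Pool.Agent.Helper18_LSG.Asm
import Pool.Agent.Helper27_LSG.CZE
import Pool.Agent.Helper21_LSG.CZI
import Pool.Agent.Helper51_LSG.CZS
import Pool.Agent.Helper66_LSG.RNI
import Pool.Agent.Helper15_LSG.RXS
import Pool.Agent.Helper62_LSG.TVS
import Pool.Agent.Helper25_LSG.UNB
import Pool.Agent.Helper77_LSG.SLO
import Pool.Agent.Helper24_LSG.QMA
import Pool.Agent.Helper43_LSG.SID
import Pool.Agent.Helper88_LSG.PCS
import Pool.Agent.Helper92_LSG.THE
import Pool.Agent.Helper62_LSG.ABC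
import Pool.Agent.Helper97_LSG.CTK
import Pool.Agent.Helper7_LSG.TVF
import Pool.Agent.Helper30_LSG.AB2
import Pool.Agent.Helper18_LSG.STO

set_option autoImplicit false

namespace Pool.Agent.LSG.H18

theorem unb_ : UnbStmt := H25.unb H37.dug H37.pel cex H99.cpe H21.bri
theorem czs_ : CzsStmt := H51.czs H27.cze H21.czi
theorem rni_ : RniStmt := H66.rni H37.pel
theorem rxs_ : RxsStmt := H15.rxs czs_ rni_ H37.pel cex H99.cpe H21.bri

theorem tvs_ : TvsStmt := H62.tvs rxs_ H7.tvf H99.cpe H21.bri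

theorem abc_ : AbcStmt :=
  H62.abc H77.slo H43.sid (H88.pcs (sto H97.ctk) H97.ctk H24.qma_) (H92.the H24.qma_)

theorem ab2_ : Ab2Stmt := H30.ab2 abc_ H37.pel cex H99.cpe H21.bri

end Pool.Agent.LSG.H18
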