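import Pool.Agent.Helper18_LSG.Asm

set_option autoImplicit false

open MeasureTheory Set Topology

namespace Pool.Agent.LSG.H18

/-- result 1 with the measure of the traces -/
theorem fn1c_ : ∃ G : AddSubgroup K, Dense (G : Set K) ∧
    (∀ E : Set K, MeasurableSet E → mu {x | x ∈ G ∧ x ∈ E} = mu E) ∧
    (∀ (k : ℕ) (A B : Set (G × Fin k)), IsClopen A → IsClopen B →
      (LEq ↥A ↥B ↔ dm A = dm B) ∧ (Nonempty (↥A ≃ₜ ↥B) ↔ dm A = dm B) ∧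
      (dm A < dm B → ¬ DMap ↥A ↥B)) ∧
    (∀ (k : ℕ) (A : Set (G × Fin k)), IsClopen A → A.Nonempty → ¬ LEq G (G ⊕ ↥A)) ∧
    ¬ LStable G ∧ ¬ SStable G := by
  obtain ⟨G, hG⟩ := con_
  obtain ⟨h1, h2, h3, h4⟩ := H43.nls mai_ H99.cpe cex H21.bri out_ cyl_ G hG
  refine ⟨G, den_ G hG, out_ G hG, ?_, h2, h3, h4⟩
  intro k A B hA hB
  refine ⟨⟨h1 k A B hA hB, fun h => leq_of_homeo H99.cpe H21.bri _ _ (hme_ G hG k A B hA hB h)⟩,
    ⟨fun h => h1 k A B hA hB (leq_of_homeo H99.cpe H21.bri _ _ h), hme_ G hG k A B hA hB⟩,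
    mai_ G hG k A B hA hB⟩

end Pool.Agent.LSG.H18
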