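import Pool.Agent.LSG.StmtsE

/-!
# Squad LSG (MP_005a41_gt), row CCK

Let `V` be a closed subset of the metrizable group `H` with a discrete sequence of translates
`g n • V`.  A function on every translate can be extended to `H` (Dugundji), so the power
`ℕ → Cp V` is a complemented subspace of `Cp H`.
-/

set_option autoImplicit false

open MeasureTheory Set Topology
open scoped BigOperators Pointwise

namespace Pool.Agent.LSG.H18

namespace CCK

lemma mem_iff {H : Type} [Group H] (a : H) (V : Set H) (z : H) : z ∈ a • V ↔ a⁻¹ * z ∈ V := by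
  rw [Set.mem_smul_set_iff_inv_smul_mem, smul_eq_mul]

variable {H ι : Type} [Group H] [TopologicalSpace H]

lemma key (V : Set H) (g : ι → H) (F : ι → ↥(Cp V)) (m n : ι) (z : H)
    (hm : (g m)⁻¹ * z ∈ V) (hn : (g n)⁻¹ * z ∈ V) (h : m = n) :
    (F m).1 ⟨(g m)⁻¹ * z, hm⟩ = (F n).1 ⟨(g n)⁻¹ * z, hn⟩ := by
  subst h
  rfl

omit [TopologicalSpace H] in
lemma index_eq (V : Set H) (g : ι → H) (hd : ∀ i j, i ≠ j → Disjoint (g i • V) (g j • V))
    (m n : ι) (z : H) (hm : (g m)⁻¹ * z ∈ V) (hn : (g n)⁻¹ * z ∈ V) : m = n := by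
  by_contra hne
  exact Set.disjoint_left.1 (hd m n hne) ((mem_iff (g m) V z).2 hm) ((mem_iff (g n) V z).2 hn)

/-- the union of the translates -/
def Z (V : Set H) (g : ι → H) : Set H := ⋃ n, g n • V

omit [TopologicalSpace H] in
lemma exists_index (V : Set H) (g : ι → H) (z : Z V g) : ∃ n, (g n)⁻¹ * z.1 ∈ V := by
  obtain ⟨n, hn⟩ := Set.mem_iUnion.1 z.2
  exact ⟨n, (mem_iff (g n) V z.1).1 hn⟩

/-- the translate which contains `z` -/
noncomputable def idx (V : Set H) (g : ι → H) (z : Z V g) : ι :=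
  (exists_index V g z).choose

lemma idx_spec (V : Set H) (g : ι → H) (z : Z V g) : (g (idx V g z))⁻¹ * z.1 ∈ V :=
  (exists_index V g z).choose_spec

/-- the function given on every translate -/
noncomputable def glue (V : Set H) (g : ι → H) (F : ι → ↥(Cp V)) (z : Z V g) : ℝ :=
  (F (idx V g z)).1 ⟨(g (idx V g z))⁻¹ * z.1, idx_spec V g z⟩

lemma glue_eq (V : Set H) (g : ι → H) (hd : ∀ i j, i ≠ j → Disjoint (g i • V) (g j • V))
    (F : ι → ↥(Cp V)) (z : Z V g) (n : ι) (hn : (g n)⁻¹ * z.1 ∈ V) :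
    glue V g F z = (F n).1 ⟨(g n)⁻¹ * z.1, hn⟩ :=
  key V g F _ n z.1 _ hn (index_eq V g hd _ n z.1 (idx_spec V g z) hn)

lemma glue_cont [IsTopologicalGroup H] (V : Set H) (g : ι → H) (hV : IsClosed V)
    (hd : ∀ i j, i ≠ j → Disjoint (g i • V) (g j • V)) (hl : LocallyFinite fun i => g i • V)
    (F : ι → ↥(Cp V)) : Continuous (glue V g F) := by
  have h1 : LocallyFinite fun n => (Subtype.val : Z V g → H) ⁻¹' (g n • V) :=
    hl.preimage_continuous continuous_subtype_val
  refine h1.continuous ?_ (fun n => (hV.smul (g n)).preimage continuous_subtype_val) fun n => ?_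
  · ext z
    simp only [Set.mem_iUnion, Set.mem_preimage, Set.mem_univ, iff_true]
    exact Set.mem_iUnion.1 z.2
  · rw [continuousOn_iff_continuous_domRestrict]
    have h2 : ∀ y : ↥((Subtype.val : Z V g → H) ⁻¹' (g n • V)), (g n)⁻¹ * y.1.1 ∈ V :=
      fun y => (mem_iff (g n) V y.1.1).1 y.2
    have h3 : ((Subtype.val : Z V g → H) ⁻¹' (g n • V)).domRestrict (glue V g F)
        = fun y => (F n).1 ⟨(g n)⁻¹ * y.1.1, h2 y⟩ := by
      funext y
      exact glue_eq V g hd F y.1 n (h2 y)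
    rw [h3]
    have h4 : Continuous (F n).1 := (F n).2
    refine h4.comp ?_
    exact Continuous.subtype_mk (continuous_const.mul
      (continuous_subtype_val.comp continuous_subtype_val)) _

/-- `glue` as a continuous linear map -/
noncomputable def glueL [IsTopologicalGroup H] (V : Set H) (g : ι → H) (hV : IsClosed V)
    (hd : ∀ i j, i ≠ j → Disjoint (g i • V) (g j • V)) (hl : LocallyFinite fun i => g i • V) :
    (ι → ↥(Cp V)) →L[ℝ] ↥(Cp (Z V g)) where
  toFun F := ⟨glue V g F, glue_cont V g hV hd hl F⟩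
  map_add' F F' := Subtype.ext (funext fun z => rfl)
  map_smul' c F := Subtype.ext (funext fun z => rfl)
  cont := by
    refine Topology.IsInducing.subtypeVal.continuous_iff.2 (continuous_pi fun z => ?_)
    exact (continuous_apply (⟨(g (idx V g z))⁻¹ * z.1, idx_spec V g z⟩ : V)).comp
      (continuous_subtype_val.comp (continuous_apply (idx V g z)))

/-- the restriction to every translate -/
noncomputable def resL [IsTopologicalGroup H] (V : Set H) (g : ι → H) :
    ↥(Cp H) →L[ℝ] (ι → ↥(Cp V)) where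
  toFun f n := ⟨fun v => f.1 (g n * v.1), Continuous.comp (f.2 : Continuous f.1)
    (continuous_const.mul continuous_subtype_val)⟩
  map_add' f f' := rfl
  map_smul' c f := rfl
  cont := by
    refine continuous_pi fun n => Topology.IsInducing.subtypeVal.continuous_iff.2
      (continuous_pi fun v => ?_)
    exact (continuous_apply (g n * v.1)).comp continuous_subtype_val

end CCK

/-- **CCK** -/
theorem cck (_h1 : CexStmt) (_h2 : CpeStmt) (h3 : DugStmt) : CckStmt := by
  intro H _ _ _ _ V S hV hd' hl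
  let g : S → H := fun x => x.1
  have hd : ∀ i j, i ≠ j → Disjoint (g i • V) (g j • V) := by
    intro i j hij
    exact hd' i.1 i.2 j.1 j.2 (fun h => hij (Subtype.ext h))
  have hZ : IsClosed (CCK.Z V g) := hl.isClosed_iUnion fun n => hV.smul (g n)
  obtain ⟨φ, hφ⟩ := h3 H (CCK.Z V g) hZ
  refine ⟨φ.comp (CCK.glueL V g hV hd hl), CCK.resL V g, fun F => ?_⟩
  funext n
  refine Subtype.ext (funext fun v => ?_)
  have hv : g n * v.1 ∈ CCK.Z V g :=
    Set.mem_iUnion.2 ⟨n, (CCK.mem_iff (g n) V _).2 (by rw [inv_mul_cancel_left]; exact v.2)⟩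
  have h5 : (g n)⁻¹ * (⟨g n * v.1, hv⟩ : CCK.Z V g).1 ∈ V := by
    change (g n)⁻¹ * (g n * v.1) ∈ V
    rw [inv_mul_cancel_left]
    exact v.2
  calc (φ (CCK.glueL V g hV hd hl F)).1 (g n * v.1)
      = CCK.glue V g F ⟨g n * v.1, hv⟩ := hφ (CCK.glueL V g hV hd hl F) ⟨g n * v.1, hv⟩
    _ = (F n).1 ⟨(g n)⁻¹ * (⟨g n * v.1, hv⟩ : CCK.Z V g).1, h5⟩ :=
        CCK.glue_eq V g hd F ⟨g n * v.1, hv⟩ n h5
    _ = (F n).1 v := by
        apply congrArg
        exact Subtype.ext (inv_mul_cancel_left (g n) v.1)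

end Pool.Agent.LSG.H18
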