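import Pool.Agent.LSG.StmtsE

/-!
# Squad LSG, row NPK: a maximal discrete family of translates (after helper86's NPC)
-/

set_option autoImplicit false

open MeasureTheory Set Topology
open scoped BigOperators Pointwise

namespace Pool.Agent.LSG.H18

/-- **Row NPK.** -/
theorem npk : NpkStmt := by
  intro H _ _ _ _ V hV
  -- a symmetric neighbourhood
  set U : Set H := V ∩ V⁻¹ with hUdef
  have hU : U ∈ nhds (1 : H) := Filter.inter_mem hV (inv_mem_nhds_one H hV)
  have hUsym : ∀ x, x ∈ U → x⁻¹ ∈ U := by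
    rintro x ⟨h1, h2⟩
    exact ⟨h2, by rw [Set.mem_inv, inv_inv]; exact h1⟩
  obtain ⟨V0, hV0, hsplit⟩ := exists_nhds_one_split4 hU
  set W : Set H := V0 ∩ V0⁻¹ with hW
  have hWn : W ∈ nhds (1 : H) := Filter.inter_mem hV0 (inv_mem_nhds_one H hV0)
  obtain ⟨V', hVn, hVc, hVW⟩ := exists_mem_nhds_isClosed_subset hWn
  -- a maximal separated set
  obtain ⟨S, hSmax⟩ := zorn_subset
    {S : Set H | ∀ g ∈ S, ∀ h ∈ S, g ≠ h → g⁻¹ * h ∉ U} (by
      intro c hc hchain
      refine ⟨⋃₀ c, ?_, fun s hs => Set.subset_sUnion_of_mem hs⟩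
      rintro g ⟨s, hs, hgs⟩ h ⟨t, ht, hht⟩ hgh
      rcases hchain.total hs ht with hst | hst
      · exact hc ht g (hst hgs) h hht hgh
      · exact hc hs g hgs h (hst hht) hgh)
  have hS : ∀ g ∈ S, ∀ h ∈ S, g ≠ h → g⁻¹ * h ∉ U := hSmax.prop
  have hcov : ∀ h : H, ∃ g ∈ S, g⁻¹ * h ∈ U := by
    intro h
    by_contra hc
    push Not at hc
    have hnew : insert h S ∈ {S : Set H | ∀ g ∈ S, ∀ h ∈ S, g ≠ h → g⁻¹ * h ∉ U} := by
      rintro a (rfl | ha) b (rfl | hb) hab
      · exact absurd rfl hab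
      · intro hm
        apply hc b hb
        have := hUsym _ hm
        rwa [mul_inv_rev, inv_inv] at this
      · exact hc a ha
      · exact hS a ha b hb hab
    have h1 : insert h S ⊆ S := hSmax.le_of_ge hnew (Set.subset_insert h S)
    have hh : h ∈ S := h1 (Set.mem_insert h S)
    apply hc h hh
    rw [inv_mul_cancel]
    exact mem_of_mem_nhds hU
  -- the key fact
  have key : ∀ (x : H) (g h : H), g ∈ S → h ∈ S → ∀ w ∈ W, ∀ w' ∈ W, ∀ v ∈ V', ∀ v' ∈ V',
      x * w = g * v → x * w' = h * v' → g = h := by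
    intro x g h hg hh w hw w' hw' v hv v' hv' h1 h2
    by_contra hne
    apply hS g hg h hh hne
    have h3 : g⁻¹ * h = v * w⁻¹ * w' * v'⁻¹ := by
      have e1 : g = x * w * v⁻¹ := by
        rw [h1]
        group
      have e2 : h = x * w' * v'⁻¹ := by
        rw [h2]
        group
      rw [e1, e2]
      group
    rw [h3]
    apply hsplit
    · exact (hVW hv).1
    · exact hw.2
    · exact hw'.1
    · exact (hVW hv').2
  have hone : (1 : H) ∈ W := mem_of_mem_nhds hWn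
  refine ⟨S, V', hVn, hVc, ?_, ?_, ?_⟩
  · intro g hg h hh hgh
    rw [Set.disjoint_left]
    rintro y ⟨v, hv, h1⟩ ⟨v', hv', h2⟩
    refine hgh (key y g h hg hh 1 hone 1 hone v hv v' hv' ?_ ?_)
    · rw [mul_one]
      exact h1.symm
    · rw [mul_one]
      exact h2.symm
  · intro x
    refine ⟨x • W, ?_, ?_⟩
    · have h1 : x • W ∈ nhds (x • (1 : H)) := smul_mem_nhds_smul x hWn
      rwa [smul_eq_mul, mul_one] at h1
    · apply Set.Subsingleton.finite
      rintro ⟨g, hg⟩ ⟨y, ⟨v, hv, h1⟩, ⟨w, hw, h2⟩⟩ ⟨h, hh⟩ ⟨y', ⟨v', hv', h1'⟩, ⟨w', hw', h2'⟩⟩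
      exact Subtype.ext (key x g h hg hh w hw w' hw' v hv v' hv' (h2.trans h1.symm)
        (h2'.trans h1'.symm))
  · rw [Set.eq_univ_iff_forall]
    intro h
    obtain ⟨g, hg, hgh⟩ := hcov h
    refine Set.mem_biUnion hg ?_
    rw [Set.mem_smul_set_iff_inv_smul_mem, smul_eq_mul]
    exact hgh.1

end Pool.Agent.LSG.H18
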