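import Pool.Agent.Helper18_LSG.AsmB
import Pool.Agent.LSG.StmtsE
import Pool.Agent.Helper18_LSG.NPK
import Pool.Agent.Helper18_LSG.CCK
import Pool.Agent.Helper69_LSG.CVK
import Pool.Agent.Helper43_LSG.CFA
import Pool.Agent.Helper90_LSG.AT2

set_option autoImplicit false

open MeasureTheory Set Topology
open scoped BigOperators Pointwise

namespace Pool.Agent.LSG.H18

theorem at2_ : At2Stmt :=
  H90.at2 npk H69.cvk (cck cex H99.cpe H37.dug) H37.pel cex H99.cpe H21.bri

theorem tame_ (H : Type) [Group H] [TopologicalSpace H] [IsTopologicalGroup H]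
    [TopologicalSpace.MetrizableSpace H] (D : Set H) (hD : Dense D)
    (hm : ∀ D' : Set H, Dense D' → Cardinal.mk D ≤ Cardinal.mk D')
    (hc : D.Countable ∨ Cardinal.aleph0 < (Cardinal.mk D).ord.cof)
    (hU : ∃ U ∈ nhds (1 : H), ∀ F : Finset H, (⋃ g ∈ F, g • U) ≠ Set.univ) :
    LEq H (H × ℕ) ∧ LStable H := by
  obtain ⟨V, hV, h1, h2⟩ := H43.cfa H D hD hm hc hU
  exact at2_ H V D hV hD h1 h2

end Pool.Agent.LSG.H18
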