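import Pool.Agent.LSG.StmtsA

set_option autoImplicit false

open MeasureTheory Set Topology

namespace Pool.Agent.LSG.H18

/-- restriction to a subset -/
noncomputable def resL {X : Type} [TopologicalSpace X] (A : Set X) : ↥(Cp X) →L[ℝ] ↥(Cp A) where
  toFun f := ⟨fun a => f.1 a.1, f.2.comp continuous_subtype_val⟩
  map_add' _ _ := rfl
  map_smul' _ _ := rfl
  cont := by
    refine Continuous.subtype_mk ?_ _
    refine continuous_pi fun a => ?_
    exact (continuous_apply a.1).comp continuous_subtype_val

open Classical in
/-- extension by zero -/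
noncomputable def ext0 {X : Type} (A : Set X) (f : A → ℝ) : X → ℝ :=
  fun x => if h : x ∈ A then f ⟨x, h⟩ else 0

theorem ext0_cont {X : Type} [TopologicalSpace X] {A : Set X} (hA : IsClopen A) {f : A → ℝ}
    (hf : Continuous f) : Continuous (ext0 A f) := by
  rw [continuous_iff_continuousAt]
  intro x
  by_cases hx : x ∈ A
  · have h1 : ContinuousOn (ext0 A f) A := by
      rw [continuousOn_iff_continuous_domRestrict]
      have h2 : A.domRestrict (ext0 A f) = f := by
        funext a
        show ext0 A f a.1 = f a
        simp [ext0, a.2]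
      rw [h2]
      exact hf
    exact h1.continuousAt (hA.isOpen.mem_nhds hx)
  · have h1 : ContinuousOn (ext0 A f) Aᶜ := by
      refine (continuousOn_const (c := (0 : ℝ))).congr ?_
      intro y hy
      simp only [ext0]
      rw [dif_neg hy]
    exact h1.continuousAt (hA.compl.isOpen.mem_nhds hx)

/-- extension by zero as a continuous linear map -/
noncomputable def extL {X : Type} [TopologicalSpace X] (A : Set X) (hA : IsClopen A) :
    ↥(Cp A) →L[ℝ] ↥(Cp X) where
  toFun f := ⟨ext0 A f.1, ext0_cont hA f.2⟩
  map_add' f g := by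
    apply Subtype.ext
    funext x
    show ext0 A (f.1 + g.1) x = ext0 A f.1 x + ext0 A g.1 x
    by_cases hx : x ∈ A
    · simp [ext0, hx]
    · simp [ext0, hx]
  map_smul' c f := by
    apply Subtype.ext
    funext x
    show ext0 A (c • f.1) x = c • ext0 A f.1 x
    by_cases hx : x ∈ A
    · simp [ext0, hx]
    · simp [ext0, hx]
  cont := by
    refine Continuous.subtype_mk ?_ _
    refine continuous_pi fun x => ?_
    by_cases hx : x ∈ A
    · have : (fun f : ↥(Cp A) => ext0 A f.1 x) = fun f : ↥(Cp A) => f.1 ⟨x, hx⟩ := by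
        funext f
        simp [ext0, hx]
      show Continuous (fun f : ↥(Cp A) => ext0 A f.1 x)
      rw [this]
      exact (continuous_apply (⟨x, hx⟩ : A)).comp continuous_subtype_val
    · have : (fun f : ↥(Cp A) => ext0 A f.1 x) = fun f : ↥(Cp A) => (0 : ℝ) := by
        funext f
        simp [ext0, hx]
      show Continuous (fun f : ↥(Cp A) => ext0 A f.1 x)
      rw [this]
      exact continuous_const

theorem cex : CexStmt := by
  refine ⟨?_, ?_⟩
  · rintro X _ A ⟨φ, hφ⟩
    refine ⟨φ, resL A, ?_⟩
    intro f
    apply Subtype.ext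
    funext a
    exact hφ f a
  · intro X _ A hA
    refine ⟨extL A hA, ?_⟩
    intro f a
    show ext0 A f.1 a.1 = f.1 a
    simp [ext0, a.2]

end Pool.Agent.LSG.H18
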