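import Pool.Agent.LSG.StmtsB

set_option autoImplicit false

open MeasureTheory Set Topology

namespace Pool.Agent.LSG.H18

theorem leq_of_homeo (hCpe : CpeStmt) (hBri : BriStmt) (X Y : Type) [TopologicalSpace X]
    [TopologicalSpace Y] (h : Nonempty (X ≃ₜ Y)) : LEq X Y :=
  (hBri.1 X Y).2 (hCpe.1 X Y h)

theorem fn1 (hCon : ConStmt) (hDen : DenStmt) (hMai : MaiStmt) (hNls : NlsStmt) (hHme : HmeStmt)
    (hCpe : CpeStmt) (hBri : BriStmt) : Fn1Stmt := by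
  obtain ⟨G, hG⟩ := hCon
  obtain ⟨h1, h2, h3, h4⟩ := hNls G hG
  refine ⟨G, hDen G hG, ?_, h2, h3, h4⟩
  intro k A B hA hB
  refine ⟨⟨h1 k A B hA hB, fun h => leq_of_homeo hCpe hBri _ _ (hHme G hG k A B hA hB h)⟩,
    ⟨fun h => h1 k A B hA hB (leq_of_homeo hCpe hBri _ _ h), hHme G hG k A B hA hB⟩,
    hMai G hG k A B hA hB⟩

theorem fn3 (hCo2 : Co2Stmt) (hDen : DenStmt) (hZst : ZstStmt) (hSzd : SzdStmt)
    (hNsd : NsdStmt) : Fn3Stmt := by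
  obtain ⟨G, hG, hU⟩ := hCo2
  exact ⟨G, hDen G hG, hZst G, fun h => hNsd G hG hU (hSzd G h), hNsd G hG hU⟩

end Pool.Agent.LSG.H18
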